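import Pool.Agent.Helper500_CC.Union

/-!
# Long Cunningham chains are rare in every interval

There is an absolute constant `ϑ > 1 / 2` such that for all `C > 1`, `η ≥ 0`, `ε > 0`, all large `X`
and ALL `Y` at most `X ^ (1 - (ϑ / 2) (1 - 1 / C) + η + ε)` integers `n ∈ (Y, Y + X]` have, among the
terms of index at most `X ^ η + (log X) ^ C` of the sequence `n, 2 n - 1, 4 n - 3, ...`, a run of
`(log X) ^ C` consecutive primes which starts at an index `≤ X ^ η`. The same holds for the sequences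
`n, 2 n + 1, 4 n + 3, ...` and, for runs of terms without prime factors `≤ (log X) ^ (C / ϑ)`, for the
orbits of every affine map `x ↦ b x + c` with integers `|b| ≥ 2`, `c ≠ 0`.

Proof: the large sieve for products of primes `q ≤ t = (log X) ^ (C / ϑ)` modulo which `b` has an order
larger than `t ^ ϑ` (a positive proportion, by a Goldfeld type theorem from the Bombieri-Vinogradov
theorem); modulo such a `q` a run excludes `(log X) ^ C` different classes.
-/

set_option autoImplicit false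

namespace Pool.Agent.Results.MP_9f2731_nt.LongRunsAreRare

open Finset Filter

/-- The `j`-th term of the sequence `n, 2 n - 1, 4 n - 3, ...` of the second kind (`n ≥ 1`). -/
def second (j n : ℕ) : ℕ := 2 ^ j * (n - 1) + 1

/-- The `j`-th term of the sequence `n, 2 n + 1, 4 n + 3, ...` of the first kind. -/
def first (j n : ℕ) : ℕ := 2 ^ j * (n + 1) - 1

/-- `f i n, f (i + 1) n, ...` starts with a run of at least `K` primes, for some time `i ≤ M`. -/
def PrimeRun (f : ℕ → ℕ → ℕ) (M K : ℝ) (n : ℕ) : Prop :=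
  ∃ i : ℕ, (i : ℝ) ≤ M ∧ ∀ j : ℕ, (j : ℝ) < K → (f (i + j) n).Prime

/-- In the orbit of `n` under `x ↦ b x + c` at least `K` consecutive terms, starting with the term
of index `i`, have no prime factor `≤ z`. -/
def RoughRun (b c : ℤ) (z K : ℝ) (i : ℕ) (n : ℤ) : Prop :=
  ∀ j : ℕ, (j : ℝ) < K → ∀ q : ℕ, q.Prime → (q : ℝ) ≤ z → ¬ (q : ℤ) ∣ (fun x : ℤ => b * x + c)^[i + j] n

open Classical in
/-- **Long Cunningham chains are rare in every interval.** -/
theorem result : ∃ ϑ : ℝ, 1 / 2 < ϑ ∧ ∀ C η ε : ℝ, 1 < C → 0 ≤ η → 0 < ε →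
    (∀ᶠ X : ℕ in atTop, ∀ Y : ℕ,
      (((Ioc Y (Y + X)).filter (PrimeRun second ((X : ℝ) ^ η) (Real.log X ^ C))).card : ℝ) ≤
        (X : ℝ) ^ (1 - ϑ / 2 * (1 - 1 / C) + η + ε)) ∧
    (∀ᶠ X : ℕ in atTop, ∀ Y : ℕ,
      (((Ioc Y (Y + X)).filter (PrimeRun first ((X : ℝ) ^ η) (Real.log X ^ C))).card : ℝ) ≤
        (X : ℝ) ^ (1 - ϑ / 2 * (1 - 1 / C) + η + ε)) ∧
    ∀ b c : ℤ, 2 ≤ |b| → c ≠ 0 → ∀ᶠ X : ℕ in atTop, ∀ Y : ℤ,
      (∀ i : ℕ, (((Ioc Y (Y + X)).filter
          (RoughRun b c (Real.log X ^ (C / ϑ)) (Real.log X ^ C) i)).card : ℝ) ≤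
        (X : ℝ) ^ (1 - ϑ / 2 * (1 - 1 / C) + ε)) ∧
      (((Ioc Y (Y + X)).filter (fun n => ∃ i : ℕ, (i : ℝ) ≤ (X : ℝ) ^ η ∧
          RoughRun b c (Real.log X ^ (C / ϑ)) (Real.log X ^ C) i n)).card : ℝ) ≤
        (X : ℝ) ^ (1 - ϑ / 2 * (1 - 1 / C) + η + ε) := by
  obtain ⟨ϑ, h1, h2, hm⟩ := Pool.Agent.Helper500_CC.main
  refine ⟨ϑ, h1, fun C η ε hC hη hε => ?_⟩
  obtain ⟨E, hE⟩ : ∃ E : ℝ, E = ϑ / 2 * (1 - 1 / C) := ⟨_, rfl⟩
  have hE1 : E ≤ 1 / 2 := by
    have hC0 : 0 < 1 / C := by positivity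
    rw [hE]
    have h4 : 1 - 1 / C ≤ 1 := by linarith
    calc ϑ / 2 * (1 - 1 / C) ≤ ϑ / 2 * 1 := mul_le_mul_of_nonneg_left h4 (by linarith)
      _ ≤ 1 / 2 := by linarith
  rw [← hE]
  have hstep : ∀ b c : ℤ, (fun x : ℤ => b * x + c) = Pool.Agent.Helper500_CC.step b c := fun _ _ => rfl
  have hU : ∀ ε' : ℝ, 0 < ε' → ∀ b c : ℤ, 2 ≤ |b| → c ≠ 0 →
      ∀ᶠ X : ℕ in atTop, ∀ Y : ℤ, ∀ A : Finset ℤ, A ⊆ Ioc Y (Y + X) →
      (∀ n ∈ A, ∃ i : ℕ, (i : ℝ) ≤ (X : ℝ) ^ η ∧ ∀ j : ℕ, (j : ℝ) < Real.log X ^ C → ∀ q : ℕ,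
        q.Prime → (q : ℝ) ≤ Real.log X ^ (C / ϑ) →
          ¬ (q : ℤ) ∣ (Pool.Agent.Helper500_CC.step b c)^[i + j] n) →
      (A.card : ℝ) ≤ (X : ℝ) ^ (1 - E + η + ε') := by
    intro ε' hε' b c hb hc
    refine Pool.Agent.Helper500_CC.union hη hε' ?_
    have := hm b c hb hc C (ε' / 2) hC (by linarith)
    rw [← hE] at this
    exact this
  refine ⟨?_, ?_, ?_⟩
  · have h4 := Pool.Agent.Helper500_CC.primes (ϑ := ϑ) (E := E) (C := C) second hη hε hE1
      (b := 2) (c := -1) (by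
        intro j n hn
        rw [Pool.Agent.Helper500_CC.iter_second]
        unfold second
        push_cast [Nat.cast_sub hn]
        ring) (by
        intro j n hn
        unfold second
        have : 1 ≤ 2 ^ j := Nat.one_le_two_pow
        have : 1 * (n - 1) ≤ 2 ^ j * (n - 1) := Nat.mul_le_mul_right _ this
        omega) (hU (ε / 2) (by linarith) 2 (-1) (by norm_num) (by norm_num))
    filter_upwards [h4] with X hX Y
    exact hX Y _ (filter_subset _ _) (fun n hn => (mem_filter.1 hn).2)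
  · have h4 := Pool.Agent.Helper500_CC.primes (ϑ := ϑ) (E := E) (C := C) first hη hε hE1
      (b := 2) (c := 1) (by
        intro j n hn
        rw [Pool.Agent.Helper500_CC.iter_first]
        unfold first
        have : 1 ≤ 2 ^ j * (n + 1) := Nat.mul_pos (by positivity) (by omega)
        push_cast [Nat.cast_sub this]
        ring) (by
        intro j n hn
        unfold first
        have : 1 ≤ 2 ^ j := Nat.one_le_two_pow
        have : 1 * (n + 1) ≤ 2 ^ j * (n + 1) := Nat.mul_le_mul_right _ this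
        omega) (hU (ε / 2) (by linarith) 2 1 (by norm_num) (by norm_num))
    filter_upwards [h4] with X hX Y
    exact hX Y _ (filter_subset _ _) (fun n hn => (mem_filter.1 hn).2)
  · intro b c hb hc
    have h5 := hm b c hb hc C ε hC hε
    rw [← hE] at h5
    filter_upwards [hU ε hε b c hb hc, h5] with X hX hX' Y
    refine ⟨fun i => hX' i Y _ (filter_subset _ _) (fun n hn => ?_),
      hX Y _ (filter_subset _ _) (fun n hn => ?_)⟩
    · have := (mem_filter.1 hn).2
      unfold RoughRun at this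
      rw [hstep] at this
      exact this
    · obtain ⟨i, hi, this⟩ := (mem_filter.1 hn).2
      unfold RoughRun at this
      rw [hstep] at this
      exact ⟨i, hi, this⟩

end Pool.Agent.Results.MP_9f2731_nt.LongRunsAreRare
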